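import Pool.Agent.N530.K17.Cnt2
import Pool.Agent.N875.K17.Stm

/-!
# K17-CNT: the number of the classes (helper875's subtask 1438)
-/

set_option autoImplicit false

namespace Pool.Agent.N530.K17

open Pool.Agent.N875.K17 Pool.Agent.N875.X15

lemma rel_iff {m a b : ℤ} : Rel m a b ↔ RA m a ∧ RB m b := by
  constructor
  · intro h
    exact ⟨⟨h.sa, h.da, fun h4 => (h.c2.1 h4).1, h.c17⟩,
      ⟨h.sb, h.db, fun h4 => (h.c2.1 h4).2, h.c2.2.1, h.c2.2.2, h.pos⟩⟩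
  · rintro ⟨⟨h1, h2, h3, h4⟩, ⟨h5, h6, h7, h8, h9, h10⟩⟩
    exact ⟨h1, h5, h2, h6, ⟨fun h => ⟨h3 h, h7 h⟩, h8, h9⟩, h4, h10⟩

lemma tt_eq (m : ℤ) : tt m = (R m).card := by
  unfold tt R
  have h : PR m = PR' m := rfl
  rw [h]

theorem t_CNT : S_CNT := by
  intro m hm hm1 hm2 _ hH hH1 hH2
  obtain ⟨S, h1, h2, h3, h4⟩ := part_AB hm hm1 hm2 hH hH1 hH2
  refine ⟨S, fun z hz => rel_iff.2 (h1 z hz), h2, fun a b h => ?_, ?_⟩
  · exact h3 a b (rel_iff.1 h).1 (rel_iff.1 h).2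
  · rw [h4, tt_eq]
    rfl

end Pool.Agent.N530.K17

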