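import Mathlib

/-!
# K17-CNT: combinatorics of square classes (Mathlib only)
-/

set_option autoImplicit false

namespace Pool.Agent.N530.K17

open scoped Classical

/-! ### subsets with a character condition -/

/-- half of the subsets -/
lemma half_card (I : Finset ℤ) (χ : ℤ → ℤ) (hχ : ∀ g ∈ I, χ g = 1 ∨ χ g = -1)
    (h : ∃ g ∈ I, χ g = -1) :
    2 * (I.powerset.filter (fun A => ∏ g ∈ A, χ g = 1)).card = 2 ^ I.card := by
  have h1 : ∑ A ∈ I.powerset, ∏ g ∈ A, χ g = 0 := by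
    rw [← Finset.prod_one_add]
    obtain ⟨g, hg, hg1⟩ := h
    exact Finset.prod_eq_zero hg (by rw [hg1]; rfl)
  have hpm : ∀ A ∈ I.powerset, (∏ g ∈ A, χ g) = 1 ∨ (∏ g ∈ A, χ g) = -1 := by
    intro A hA
    rw [Finset.mem_powerset] at hA
    refine Finset.prod_induction _ (fun x => x = 1 ∨ x = -1) ?_ (Or.inl rfl) fun g hg => hχ g (hA hg)
    rintro a b (rfl | rfl) (rfl | rfl) <;> simp
  have h2 : ∑ A ∈ I.powerset, ∏ g ∈ A, χ g =
      ∑ A ∈ I.powerset, (2 * (if ∏ g ∈ A, χ g = 1 then (1 : ℤ) else 0) - 1) := by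
    refine Finset.sum_congr rfl fun A hA => ?_
    rcases hpm A hA with h3 | h3
    · rw [h3, if_pos rfl]; rfl
    · rw [h3, if_neg (by decide)]; rfl
  rw [h1, Finset.sum_sub_distrib, ← Finset.mul_sum, Finset.sum_boole] at h2
  simp only [Finset.sum_const, nsmul_eq_mul, mul_one, Finset.card_powerset] at h2
  have h3 : ((2 * (I.powerset.filter (fun A => ∏ g ∈ A, χ g = 1)).card : ℕ) : ℤ) =
      ((2 ^ I.card : ℕ) : ℤ) := by
    push_cast
    push_cast at h2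
    linarith
  exact_mod_cast h3

/-! ### squarefree integers -/

/-- a set of generators: `-1` and primes -/
def Gn (I : Finset ℤ) : Prop := ∀ g ∈ I, g = -1 ∨ ∃ p : ℕ, p.Prime ∧ g = p

lemma Gn.sub {I A : Finset ℤ} (hI : Gn I) (h : A ⊆ I) : Gn A := fun g hg => hI g (h hg)

lemma dvd_prod {A : Finset ℤ} (hA : Gn A) {p : ℕ} (hp : p.Prime) :
    (p : ℤ) ∣ ∏ g ∈ A, g ↔ (p : ℤ) ∈ A := by
  constructor
  · intro h
    obtain ⟨g, hg, hpg⟩ := (Prime.dvd_finsetProd_iff (Nat.prime_iff_prime_int.1 hp) _).1 h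
    rcases hA g hg with rfl | ⟨q, hq, rfl⟩
    · exfalso
      have h1 : (p : ℤ) ∣ 1 := by
        have := hpg
        rwa [dvd_neg] at this
      exact hp.one_lt.ne' (by exact_mod_cast Int.eq_one_of_dvd_one (by positivity) h1)
    · have h1 : p ∣ q := by exact_mod_cast hpg
      rw [(Nat.prime_dvd_prime_iff_eq hp hq).1 h1]
      exact hg
  · exact fun h => Finset.dvd_prod_of_mem _ h

lemma prod_pos {A : Finset ℤ} (hA : Gn A) (h : (-1 : ℤ) ∉ A) : 0 < ∏ g ∈ A, g := by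
  refine Finset.prod_pos fun g hg => ?_
  rcases hA g hg with rfl | ⟨q, hq, rfl⟩
  · exact absurd hg h
  · exact_mod_cast hq.pos

lemma prod_neg {A : Finset ℤ} (hA : Gn A) (h : (-1 : ℤ) ∈ A) : ∏ g ∈ A, g < 0 := by
  rw [← Finset.mul_prod_erase _ _ h]
  have := prod_pos (hA.sub (Finset.erase_subset (-1) A)) (Finset.notMem_erase _ _)
  linarith

lemma neg_iff {A : Finset ℤ} (hA : Gn A) : ∏ g ∈ A, g < 0 ↔ (-1 : ℤ) ∈ A := by
  constructor
  · intro h
    by_contra h1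
    exact absurd (prod_pos hA h1) (not_lt.2 h.le)
  · exact prod_neg hA

lemma prod_inj {A B : Finset ℤ} (hA : Gn A) (hB : Gn B) (h : ∏ g ∈ A, g = ∏ g ∈ B, g) : A = B := by
  ext g
  constructor
  · intro hg
    rcases hA g hg with rfl | ⟨q, hq, rfl⟩
    · exact (neg_iff hB).1 (h ▸ (neg_iff hA).2 hg)
    · exact (dvd_prod hB hq).1 (h ▸ (dvd_prod hA hq).2 hg)
  · intro hg
    rcases hB g hg with rfl | ⟨q, hq, rfl⟩
    · exact (neg_iff hA).1 (h ▸ (neg_iff hB).2 hg)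
    · exact (dvd_prod hA hq).1 (h ▸ (dvd_prod hB hq).2 hg)

lemma prod_sqf {A : Finset ℤ} (hA : Gn A) : Squarefree (∏ g ∈ A, g) := by
  induction A using Finset.induction_on with
  | empty => rw [Finset.prod_empty]; exact squarefree_one
  | insert x s hx ih =>
    rw [Finset.prod_insert hx]
    have hs := ih (hA.sub (Finset.subset_insert _ _))
    rcases hA x (Finset.mem_insert_self _ _) with rfl | ⟨q, hq, rfl⟩
    · rw [neg_one_mul]
      exact Int.squarefree_natAbs.1 (by rw [Int.natAbs_neg]; exact Int.squarefree_natAbs.2 hs)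
    · rw [squarefree_mul_iff]
      refine ⟨?_, (Nat.prime_iff_prime_int.1 hq).squarefree, hs⟩
      rw [(Nat.prime_iff_prime_int.1 hq).irreducible.isRelPrime_iff_not_dvd]
      intro h
      exact hx ((dvd_prod (hA.sub (Finset.subset_insert _ _)) hq).1 h)

/-- every squarefree integer is a product of generators -/
lemma exists_prod {a : ℤ} (ha : Squarefree a) : ∃ A : Finset ℤ, Gn A ∧ ∏ g ∈ A, g = a ∧
    (∀ p : ℕ, p.Prime → ((p : ℤ) ∈ A ↔ (p : ℤ) ∣ a)) ∧ ((-1 : ℤ) ∈ A ↔ a < 0) := by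
  have ha0 : a ≠ 0 := ha.ne_zero
  have hn : Squarefree a.natAbs := Int.squarefree_natAbs.2 ha
  set P : Finset ℤ := a.natAbs.primeFactors.image (fun p : ℕ => (p : ℤ)) with hP
  have hPp : ∏ g ∈ P, g = (a.natAbs : ℤ) := by
    rw [hP, Finset.prod_image (fun x _ y _ h => by exact_mod_cast h), ← Nat.cast_prod,
      Nat.prod_primeFactors_of_squarefree hn]
  have hPG : Gn P := by
    intro g hg
    rw [hP, Finset.mem_image] at hg
    obtain ⟨p, hp, rfl⟩ := hg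
    exact Or.inr ⟨p, Nat.prime_of_mem_primeFactors hp, rfl⟩
  have hm1 : (-1 : ℤ) ∉ P := by
    intro h
    rw [hP, Finset.mem_image] at h
    obtain ⟨p, -, hp⟩ := h
    have : (0 : ℤ) ≤ (p : ℤ) := by positivity
    omega
  rcases lt_or_ge a 0 with h | h
  · have hG : Gn (insert (-1) P) := by
      intro g hg
      rcases Finset.mem_insert.1 hg with rfl | hg
      · exact Or.inl rfl
      · exact hPG g hg
    have hprod : ∏ g ∈ insert (-1) P, g = a := by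
      rw [Finset.prod_insert hm1, hPp]
      omega
    refine ⟨insert (-1) P, hG, hprod, fun p hp => ?_, ?_⟩
    · rw [← dvd_prod hG hp, hprod]
    · rw [← neg_iff hG, hprod]
  · have hprod : ∏ g ∈ P, g = a := by
      rw [hPp]
      omega
    refine ⟨P, hPG, hprod, fun p hp => ?_, ?_⟩
    · rw [← dvd_prod hPG hp, hprod]
    · rw [← neg_iff hPG, hprod]

/-- the integers which are products of generators in `I`, with a character condition -/
noncomputable def SS (I : Finset ℤ) (Q : ℤ → Prop) : Finset ℤ :=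
  (I.powerset.image (fun A => ∏ g ∈ A, g)).filter Q

lemma mem_SS {I : Finset ℤ} (hI : Gn I) {Q : ℤ → Prop} {a : ℤ} : a ∈ SS I Q ↔
    Squarefree a ∧ (a < 0 → (-1 : ℤ) ∈ I) ∧ (∀ p : ℕ, p.Prime → (p : ℤ) ∣ a → (p : ℤ) ∈ I) ∧ Q a := by
  unfold SS
  rw [Finset.mem_filter, Finset.mem_image]
  constructor
  · rintro ⟨⟨A, hA, rfl⟩, hQ⟩
    rw [Finset.mem_powerset] at hA
    have hAG := hI.sub hA
    exact ⟨prod_sqf hAG, fun h => hA ((neg_iff hAG).1 h), fun p hp h => hA ((dvd_prod hAG hp).1 h), hQ⟩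
  · rintro ⟨h1, h2, h3, h4⟩
    obtain ⟨A, hA, hA2, hA3, hA4⟩ := exists_prod h1
    refine ⟨⟨A, ?_, hA2⟩, h4⟩
    rw [Finset.mem_powerset]
    intro g hg
    rcases hA g hg with rfl | ⟨p, hp, rfl⟩
    · exact h2 (hA4.1 hg)
    · exact h3 p hp ((hA3 p hp).1 hg)

lemma card_SS_full {I : Finset ℤ} (hI : Gn I) : (SS I fun _ => True).card = 2 ^ I.card := by
  unfold SS
  rw [Finset.filter_true, Finset.card_image_of_injOn, Finset.card_powerset]
  intro A hA B hB h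
  rw [Finset.mem_coe, Finset.mem_powerset] at hA hB
  exact prod_inj (hI.sub hA) (hI.sub hB) h

lemma card_SS_half {I : Finset ℤ} (hI : Gn I) (Q : ℤ → Prop) (χ : ℤ → ℤ)
    (hχ : ∀ g ∈ I, χ g = 1 ∨ χ g = -1) (h : ∃ g ∈ I, χ g = -1)
    (hQ : ∀ A ⊆ I, Q (∏ g ∈ A, g) ↔ ∏ g ∈ A, χ g = 1) : 2 * (SS I Q).card = 2 ^ I.card := by
  rw [← half_card I χ hχ h]
  congr 1
  unfold SS
  rw [Finset.filter_image, Finset.card_image_of_injOn]
  · congr 1
    refine Finset.filter_congr fun A hA => ?_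
    rw [Finset.mem_powerset] at hA
    exact hQ A hA
  · intro A hA B hB h
    rw [Finset.mem_coe, Finset.mem_filter, Finset.mem_powerset] at hA hB
    exact prod_inj (hI.sub hA.1) (hI.sub hB.1) h

/-! ### products of squarefree integers -/

lemma sqf_mul {a m : ℤ} (ha : Squarefree a) (hm : Squarefree m) : ∃ a' g : ℤ, g ≠ 0 ∧
    a' * g ^ 2 = a * m ∧ Squarefree a' ∧
    (∀ p : ℕ, p.Prime → ((p : ℤ) ∣ a' ↔ ((p : ℤ) ∣ a ∧ ¬ (p : ℤ) ∣ m) ∨ (¬ (p : ℤ) ∣ a ∧ (p : ℤ) ∣ m))) ∧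
    (∀ p : ℕ, p.Prime → ((p : ℤ) ∣ g ↔ (p : ℤ) ∣ a ∧ (p : ℤ) ∣ m)) := by
  have ha0 : a ≠ 0 := ha.ne_zero
  set g : ℤ := (Int.gcd a m : ℤ) with hg
  have hgN : Int.gcd a m ≠ 0 := fun h => ha0 (Int.gcd_eq_zero_iff.1 h).1
  have hg0 : g ≠ 0 := by
    rw [hg]
    exact_mod_cast hgN
  obtain ⟨a1, ha1⟩ : g ∣ a := Int.gcd_dvd_left a m
  obtain ⟨m1, hm1⟩ : g ∣ m := Int.gcd_dvd_right a m
  have hcop : IsCoprime a1 m1 := by
    rw [Int.isCoprime_iff_gcd_eq_one]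
    have h1 := Int.gcd_div_gcd_div_gcd (i := a) (j := m) (Nat.pos_of_ne_zero hgN)
    have e1 : a / (Int.gcd a m : ℤ) = a1 := by
      rw [← hg, ha1]
      exact Int.mul_ediv_cancel_left _ hg0
    have e2 : m / (Int.gcd a m : ℤ) = m1 := by
      rw [← hg]
      conv_lhs => rw [hm1]
      exact Int.mul_ediv_cancel_left _ hg0
    rwa [e1, e2] at h1
  have ha' := ha
  have hm' := hm
  rw [ha1, squarefree_mul_iff] at ha'
  rw [hm1, squarefree_mul_iff] at hm'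
  obtain ⟨hr1, hsg, hs1⟩ := ha'
  obtain ⟨hr2, -, hs2⟩ := hm'
  have hnd : ∀ p : ℕ, p.Prime → ∀ x y : ℤ, IsRelPrime x y → (p : ℤ) ∣ x → (p : ℤ) ∣ y → False := by
    intro p hp x y h h1 h2
    exact (Nat.prime_iff_prime_int.1 hp).not_isUnit (h h1 h2)
  have hc' : IsRelPrime a1 m1 := hcop.isRelPrime
  refine ⟨a1 * m1, g, hg0, ?_, ?_, ?_, ?_⟩
  · conv_rhs => rw [ha1, hm1]
    ring
  · rw [squarefree_mul_iff]
    exact ⟨hc', hs1, hs2⟩
  · intro p hp
    have hpp := Nat.prime_iff_prime_int.1 hp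
    constructor
    · intro h
      rcases hpp.dvd_or_dvd h with h1 | h1
      · refine Or.inl ⟨ha1 ▸ Dvd.dvd.mul_left h1 g, fun h2 => ?_⟩
        rw [hm1] at h2
        rcases hpp.dvd_or_dvd h2 with h3 | h3
        · exact hnd p hp _ _ hr1 h3 h1
        · exact hnd p hp _ _ hc' h1 h3
      · refine Or.inr ⟨fun h2 => ?_, hm1 ▸ Dvd.dvd.mul_left h1 g⟩
        rw [ha1] at h2
        rcases hpp.dvd_or_dvd h2 with h3 | h3
        · exact hnd p hp _ _ hr2 h3 h1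
        · exact hnd p hp _ _ hc' h3 h1
    · rintro (⟨h1, h2⟩ | ⟨h1, h2⟩)
      · rw [ha1] at h1
        rcases hpp.dvd_or_dvd h1 with h3 | h3
        · exact absurd (hm1 ▸ Dvd.dvd.mul_right h3 m1) h2
        · exact Dvd.dvd.mul_right h3 _
      · rw [hm1] at h2
        rcases hpp.dvd_or_dvd h2 with h3 | h3
        · exact absurd (ha1 ▸ Dvd.dvd.mul_right h3 a1) h1
        · exact Dvd.dvd.mul_left h3 _
  · intro p hp
    have hpp := Nat.prime_iff_prime_int.1 hp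
    constructor
    · intro h
      exact ⟨ha1 ▸ Dvd.dvd.mul_right h a1, hm1 ▸ Dvd.dvd.mul_right h m1⟩
    · rintro ⟨h1, h2⟩
      exact Int.dvd_coe_gcd h1 h2

lemma eq_of_sq {a b : ℤ} (ha : Squarefree a) (hb : Squarefree b) (h : IsSquare (a * b)) : a = b := by
  obtain ⟨c, g, hg, he, hc, hp, -⟩ := sqf_mul ha hb
  have hsq : IsSquare (c * g ^ 2) := he ▸ h
  obtain ⟨r, hr⟩ := hsq
  have hgr : g ^ 2 ∣ r ^ 2 := ⟨c, by rw [pow_two r, ← hr]; ring⟩
  obtain ⟨s, rfl⟩ := (Int.pow_dvd_pow_iff two_ne_zero).1 hgr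
  have hcs : c = s * s := by
    have h1 : g ^ 2 * (c - s * s) = 0 := by linear_combination hr
    rcases mul_eq_zero.1 h1 with h2 | h2
    · exact absurd h2 (pow_ne_zero 2 hg)
    · linarith
  have hs : IsUnit s := hc s ⟨1, by rw [mul_one]; exact hcs⟩
  have hc1 : c = 1 := by
    rcases Int.isUnit_iff.1 hs with rfl | rfl <;> simpa using hcs
  -- now `a b = g²`
  obtain ⟨A, hA, hA2, hA3, hA4⟩ := exists_prod ha
  obtain ⟨B, hB, hB2, hB3, hB4⟩ := exists_prod hb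
  have hab : A = B := by
    ext x
    have hpd : ∀ p : ℕ, p.Prime → ((p : ℤ) ∣ a ↔ (p : ℤ) ∣ b) := by
      intro p hpp
      have h1 := hp p hpp
      rw [hc1] at h1
      have h2 : ¬ (p : ℤ) ∣ 1 := (Nat.prime_iff_prime_int.1 hpp).not_dvd_one
      by_contra hcon
      apply h2
      rw [h1]
      by_cases h3 : (p : ℤ) ∣ a
      · exact Or.inl ⟨h3, fun h4 => hcon ⟨fun _ => h4, fun _ => h3⟩⟩
      · exact Or.inr ⟨h3, by
          by_contra h4
          exact hcon ⟨fun h5 => absurd h5 h3, fun h5 => absurd h5 h4⟩⟩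
    have hsg : a < 0 ↔ b < 0 := by
      have h1 : 0 < a * b := by
        rw [← he, hc1, one_mul]
        positivity
      constructor
      · intro h2
        by_contra h3
        push Not at h3
        have := mul_nonpos_of_nonpos_of_nonneg h2.le h3
        linarith
      · intro h2
        by_contra h3
        push Not at h3
        have := mul_nonpos_of_nonneg_of_nonpos h3 h2.le
        linarith
    constructor
    · intro hx
      rcases hA x hx with rfl | ⟨p, hpp, rfl⟩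
      · exact hB4.2 (hsg.1 (hA4.1 hx))
      · exact (hB3 p hpp).2 ((hpd p hpp).1 ((hA3 p hpp).1 hx))
    · intro hx
      rcases hB x hx with rfl | ⟨p, hpp, rfl⟩
      · exact hA4.2 (hsg.2 (hB4.1 hx))
      · exact (hA3 p hpp).2 ((hpd p hpp).2 ((hB3 p hpp).1 hx))
  rw [← hA2, ← hB2, hab]

lemma not_sq_three {a b m : ℤ} {p : ℕ} (hp : p.Prime) (ha : ¬ (p : ℤ) ∣ a) (hb : ¬ (p : ℤ) ∣ b)
    (hm : Squarefree m) (hpm : (p : ℤ) ∣ m) : ¬ IsSquare (a * b * m) := by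
  rintro ⟨r, hr⟩
  have hpp := Nat.prime_iff_prime_int.1 hp
  have h1 : (p : ℤ) ∣ r := by
    have : (p : ℤ) ∣ r * r := hr ▸ Dvd.dvd.mul_left hpm _
    rcases hpp.dvd_or_dvd this with h | h <;> exact h
  have h2 : (p : ℤ) * p ∣ a * b * m := hr ▸ mul_dvd_mul h1 h1
  obtain ⟨m1, rfl⟩ := hpm
  have h3 : (p : ℤ) ∣ a * b * m1 := by
    have h4 : (p : ℤ) * p ∣ p * (a * b * m1) := by
      have e : (p : ℤ) * (a * b * m1) = a * b * (p * m1) := by ring
      rwa [e]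
    exact (mul_dvd_mul_iff_left hpp.ne_zero).1 h4
  rcases hpp.dvd_or_dvd h3 with h4 | h4
  · rcases hpp.dvd_or_dvd h4 with h5 | h5
    · exact ha h5
    · exact hb h5
  · exact hpp.not_isUnit (hm p (mul_dvd_mul_left _ h4))

/-- equality of square classes of `K` -/
def Eqv' (m a b : ℤ) : Prop := IsSquare (a * b) ∨ IsSquare (a * b * m)

/-- the transversal `p0 ∤ a` -/
lemma transv {m : ℤ} (hm : Squarefree m) {p0 : ℕ} (hp0 : p0.Prime) (hpm : (p0 : ℤ) ∣ m)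
    (Q : ℤ → Prop) (hQs : ∀ a, Q a → Squarefree a)
    (hQ : ∀ a a' g : ℤ, Q a → (p0 : ℤ) ∣ a → g ≠ 0 → a' * g ^ 2 = a * m → Squarefree a' →
      (∀ p : ℕ, p.Prime → ((p : ℤ) ∣ a' ↔ ((p : ℤ) ∣ a ∧ ¬ (p : ℤ) ∣ m) ∨ (¬ (p : ℤ) ∣ a ∧ (p : ℤ) ∣ m))) →
      (∀ p : ℕ, p.Prime → ((p : ℤ) ∣ g ↔ (p : ℤ) ∣ a ∧ (p : ℤ) ∣ m)) → Q a')
    (S : Finset ℤ) (hS : ∀ a, a ∈ S ↔ Q a ∧ ¬ (p0 : ℤ) ∣ a) :
    (∀ a ∈ S, Q a) ∧ (∀ a ∈ S, ∀ b ∈ S, Eqv' m a b → a = b) ∧ ∀ a, Q a → ∃ b ∈ S, Eqv' m a b := by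
  refine ⟨fun a ha => ((hS a).1 ha).1, ?_, ?_⟩
  · rintro a ha b hb (h | h)
    · exact eq_of_sq (hQs _ ((hS a).1 ha).1) (hQs _ ((hS b).1 hb).1) h
    · exact absurd h (not_sq_three hp0 ((hS a).1 ha).2 ((hS b).1 hb).2 hm hpm)
  · intro a ha
    by_cases h : (p0 : ℤ) ∣ a
    · obtain ⟨a', g, hg, he, hs, hp, hgp⟩ := sqf_mul (hQs a ha) hm
      refine ⟨a', (hS a').2 ⟨hQ a a' g ha h hg he hs hp hgp, ?_⟩, Or.inr ⟨a' * g, ?_⟩⟩
      · rw [hp p0 hp0]
        rintro (⟨-, h2⟩ | ⟨h1, -⟩)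
        · exact h2 hpm
        · exact h1 h
      · linear_combination (-a') * he
    · exact ⟨a, (hS a).2 ⟨ha, h⟩, Or.inl ⟨a, rfl⟩⟩

end Pool.Agent.N530.K17
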