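import Pool.Agent.N530.K17.Cnt0

/-!
# K17-CNT: the two parts
-/

set_option autoImplicit false

namespace Pool.Agent.N530.K17

open scoped Classical

/-- the ramified primes -/
def PR' (m : ℤ) : Finset ℕ := (if m % 4 = 1 then m.natAbs else 2 * m.natAbs).primeFactors

/-- the ramified primes `≠ 17` -/
noncomputable def R (m : ℤ) : Finset ℕ := (PR' m).erase 17

lemma mem_R {m : ℤ} (hm : m ≠ 0) {p : ℕ} : p ∈ R m ↔ p ≠ 17 ∧ p.Prime ∧
    ((p : ℤ) ∣ m ∨ (p = 2 ∧ m % 4 ≠ 1)) := by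
  have h0 : m.natAbs ≠ 0 := Int.natAbs_ne_zero.2 hm
  unfold R PR'
  rw [Finset.mem_erase]
  by_cases h : m % 4 = 1
  · rw [if_pos h, Nat.mem_primeFactors, ← Int.natCast_dvd]
    constructor
    · rintro ⟨h1, h2, h3, -⟩
      exact ⟨h1, h2, Or.inl h3⟩
    · rintro ⟨h1, h2, h3 | ⟨-, h3⟩⟩
      · exact ⟨h1, h2, h3, h0⟩
      · exact absurd h h3
  · rw [if_neg h, Nat.mem_primeFactors]
    constructor
    · rintro ⟨h1, h2, h3, -⟩
      refine ⟨h1, h2, ?_⟩
      rcases (Nat.Prime.dvd_mul h2).1 h3 with h4 | h4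
      · exact Or.inr ⟨(Nat.prime_dvd_prime_iff_eq h2 Nat.prime_two).1 h4, h⟩
      · exact Or.inl (Int.natCast_dvd.2 h4)
    · rintro ⟨h1, h2, h3⟩
      refine ⟨h1, h2, ?_, mul_ne_zero two_ne_zero h0⟩
      rcases h3 with h3 | ⟨rfl, -⟩
      · exact Dvd.dvd.mul_left (Int.natCast_dvd.1 h3) 2
      · exact Dvd.intro _ rfl

/-- the condition at `17` -/
def C17' (m a : ℤ) : Prop := (jacobiSym m 17 = -1 → ¬ (17 : ℤ) ∣ a) ∧
  (jacobiSym m 17 = 1 → jacobiSym a 17 = 1) ∧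
  ((17 : ℤ) ∣ m → (jacobiSym a 17 = 1 ∨ ((17 : ℤ) ∣ a ∧ jacobiSym ((a / 17) * (m / 17)) 17 = 1)))

/-- the conditions on `a` -/
def RA (m a : ℤ) : Prop := Squarefree a ∧
  (∀ p : ℕ, p.Prime → p ≠ 2 → p ≠ 17 → (p : ℤ) ∣ a → (p : ℤ) ∣ m) ∧
  (m % 4 = 1 → ¬ (2 : ℤ) ∣ a) ∧ C17' m a

/-- the conditions on `b` -/
def RB (m b : ℤ) : Prop := Squarefree b ∧
  (∀ p : ℕ, p.Prime → p ≠ 2 → p ≠ 17 → (p : ℤ) ∣ b → (p : ℤ) ∣ m) ∧
  (m % 4 = 1 → b % 4 = 1) ∧ (m % 4 = 3 → ¬ (2 : ℤ) ∣ b) ∧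
  ((2 : ℤ) ∣ m → (b % 4 = 1 ∨ ((2 : ℤ) ∣ b ∧ ((b / 2) * (m / 2)) % 4 = 1))) ∧ (0 < m → 0 < b)

/-- the images of a set of primes -/
def im (P : Finset ℕ) : Finset ℤ := P.image (fun p : ℕ => (p : ℤ))

lemma mem_im {P : Finset ℕ} {p : ℕ} : (p : ℤ) ∈ im P ↔ p ∈ P := by
  unfold im
  rw [Finset.mem_image]
  constructor
  · rintro ⟨q, hq, h⟩
    have : q = p := by exact_mod_cast h
    exact this ▸ hq
  · exact fun h => ⟨p, h, rfl⟩

lemma neg_notMem_im {P : Finset ℕ} : (-1 : ℤ) ∉ im P := by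
  unfold im
  rw [Finset.mem_image]
  rintro ⟨q, -, h⟩
  have : (0 : ℤ) ≤ (q : ℤ) := by positivity
  omega

lemma card_im (P : Finset ℕ) : (im P).card = P.card :=
  Finset.card_image_of_injective _ fun x y h => by exact_mod_cast h

lemma Gn_im {P : Finset ℕ} (hP : ∀ p ∈ P, p.Prime) : Gn (im P) := by
  intro g hg
  unfold im at hg
  rw [Finset.mem_image] at hg
  obtain ⟨p, hp, rfl⟩ := hg
  exact Or.inr ⟨p, hP p hp, rfl⟩

lemma Gn_insert {I : Finset ℤ} (hI : Gn I) : Gn (insert (-1) I) := by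
  intro g hg
  rcases Finset.mem_insert.1 hg with rfl | hg
  · exact Or.inl rfl
  · exact hI g hg

lemma mem_insert_im {P : Finset ℕ} {p : ℕ} : (p : ℤ) ∈ insert (-1 : ℤ) (im P) ↔ p ∈ P := by
  rw [Finset.mem_insert, mem_im]
  constructor
  · rintro (h | h)
    · have : (0 : ℤ) ≤ (p : ℤ) := by positivity
      omega
    · exact h
  · exact Or.inr

/-- another prime -/
lemma another {A : Finset ℤ} {χ : ℤ → ℤ} {x : ℤ} (hx : x ∈ A) (h1 : χ x = -1)
    (h : ∏ g ∈ A, χ g = 1) : ∃ y ∈ A, y ≠ x ∧ χ y ≠ 1 := by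
  by_contra hcon
  push Not at hcon
  rw [← Finset.mul_prod_erase _ _ hx, h1] at h
  have h2 : ∏ g ∈ A.erase x, χ g = 1 :=
    Finset.prod_eq_one fun g hg => hcon g (Finset.mem_of_mem_erase hg) (Finset.ne_of_mem_erase hg)
  rw [h2] at h
  exact absurd h (by decide)

/-! ### the part `a` -/

lemma jac_dvd {a : ℤ} : jacobiSym a 17 = 0 ↔ (17 : ℤ) ∣ a := by
  have : Fact (Nat.Prime 17) := ⟨by norm_num⟩
  rw [← jacobiSym.legendreSym.to_jacobiSym, legendreSym.eq_zero_iff, ZMod.intCast_zmod_eq_zero_iff_dvd]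
  rfl

lemma jac_cases (a : ℤ) : jacobiSym a 17 = 0 ∨ jacobiSym a 17 = 1 ∨ jacobiSym a 17 = -1 :=
  jacobiSym.trichotomy a 17

lemma jac_neg_one : jacobiSym (-1) 17 = 1 := by
  rw [jacobiSym.at_neg_one (by decide : Odd 17)]
  rfl

lemma jac_of {a' g x : ℤ} (h : a' * g ^ 2 = x) (hx : jacobiSym x 17 = 1) : jacobiSym a' 17 = 1 := by
  rw [← h, jacobiSym.mul_left, jacobiSym.pow_left] at hx
  rcases jac_cases a' with h1 | h1 | h1
  · rw [h1, zero_mul] at hx
    exact absurd hx (by decide)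
  · exact h1
  · rw [h1] at hx
    have := sq_nonneg (jacobiSym g 17)
    omega

lemma jac_prod (A : Finset ℤ) : jacobiSym (∏ g ∈ A, g) 17 = ∏ g ∈ A, jacobiSym g 17 := by
  induction A using Finset.induction_on with
  | empty => rw [Finset.prod_empty, Finset.prod_empty, jacobiSym.one_left]
  | insert x s hx ih => rw [Finset.prod_insert hx, Finset.prod_insert hx, jacobiSym.mul_left, ih]

/-- the generators -/
noncomputable def Ia (m : ℤ) (p0 : ℕ) : Finset ℤ := insert (-1) (im ((R m).erase p0))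

/-- the condition -/
def Qa (m a : ℤ) : Prop := jacobiSym m 17 ≠ -1 → jacobiSym a 17 = 1

lemma R_prime {m : ℤ} (hm : m ≠ 0) : ∀ p ∈ R m, p.Prime := fun _ hp => ((mem_R hm).1 hp).2.1

lemma Gn_Ia {m : ℤ} (hm : m ≠ 0) (p0 : ℕ) : Gn (Ia m p0) :=
  Gn_insert (Gn_im fun p hp => R_prime hm p (Finset.mem_of_mem_erase hp))

lemma mem_SA {m : ℤ} (hm : Squarefree m) {p0 : ℕ} (hp0 : p0.Prime) (h17 : (17 : ℤ) ∣ m → p0 = 17)
    (a : ℤ) : a ∈ SS (Ia m p0) (Qa m) ↔ RA m a ∧ ¬ (p0 : ℤ) ∣ a := by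
  have hm0 : m ≠ 0 := hm.ne_zero
  rw [mem_SS (Gn_Ia hm0 p0)]
  have hI : ∀ p : ℕ, (p : ℤ) ∈ Ia m p0 ↔ p ∈ (R m).erase p0 := fun p => mem_insert_im
  constructor
  · rintro ⟨hs, -, hd, hQ⟩
    have hd' : ∀ p : ℕ, p.Prime → (p : ℤ) ∣ a → p ≠ p0 ∧ p ≠ 17 ∧ p.Prime ∧
        ((p : ℤ) ∣ m ∨ (p = 2 ∧ m % 4 ≠ 1)) := by
      intro p hp h
      have h1 := (hI p).1 (hd p hp h)
      rw [Finset.mem_erase, mem_R hm0] at h1
      exact h1
    have hn17 : ¬ (17 : ℤ) ∣ a := fun h => (hd' 17 (by norm_num) h).2.1 rfl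
    refine ⟨⟨hs, ?_, ?_, ?_, ?_, ?_⟩, fun h => (hd' p0 hp0 h).1 rfl⟩
    · intro p hp h2 _ h
      rcases (hd' p hp h).2.2.2 with h3 | ⟨h3, -⟩
      · exact h3
      · exact absurd h3 h2
    · intro h1 h2
      rcases (hd' 2 Nat.prime_two h2).2.2.2 with h3 | ⟨-, h3⟩
      · push_cast at h3
        omega
      · exact h3 h1
    · exact fun _ => hn17
    · exact fun h => hQ (by rw [h]; decide)
    · exact fun h => Or.inl (hQ (by rw [jac_dvd.2 h]; decide))
  · rintro ⟨⟨hs, hd, h2, hc1, hc2, hc3⟩, hp0a⟩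
    have hn17 : ¬ (17 : ℤ) ∣ a := by
      intro h
      rcases jac_cases m with h1 | h1 | h1
      · rw [h17 (jac_dvd.1 h1)] at hp0a
        exact hp0a h
      · have := hc2 h1
        rw [jac_dvd.2 h] at this
        exact absurd this (by decide)
      · exact hc1 h1 h
    refine ⟨hs, fun _ => Finset.mem_insert_self _ _, ?_, ?_⟩
    · intro p hp h
      rw [hI, Finset.mem_erase, mem_R hm0]
      refine ⟨fun h1 => hp0a (h1 ▸ h), fun h1 => hn17 (by rw [h1] at h; exact h), hp, ?_⟩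
      by_cases hp2 : p = 2
      · subst hp2
        by_cases h4 : m % 4 = 1
        · exact absurd h (h2 h4)
        · exact Or.inr ⟨rfl, h4⟩
      · exact Or.inl (hd p hp hp2 (fun h1 => hn17 (by rw [h1] at h; exact h)) h)
    · intro h
      rcases jac_cases m with h1 | h1 | h1
      · rcases hc3 (jac_dvd.1 h1) with h3 | ⟨h3, -⟩
        · exact h3
        · exact absurd h3 hn17
      · exact hc2 h1
      · exact absurd h1 h

lemma closed_A {m : ℤ} (hm : Squarefree m) {p0 : ℕ} (h17 : (17 : ℤ) ∣ m → p0 = 17)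
    (a a' g : ℤ) (ha : RA m a) (hpa : (p0 : ℤ) ∣ a) (hg : g ≠ 0) (he : a' * g ^ 2 = a * m)
    (hs : Squarefree a')
    (hp : ∀ p : ℕ, p.Prime → ((p : ℤ) ∣ a' ↔ ((p : ℤ) ∣ a ∧ ¬ (p : ℤ) ∣ m) ∨ (¬ (p : ℤ) ∣ a ∧ (p : ℤ) ∣ m)))
    (hgp : ∀ p : ℕ, p.Prime → ((p : ℤ) ∣ g ↔ (p : ℤ) ∣ a ∧ (p : ℤ) ∣ m)) : RA m a' := by
  obtain ⟨hsa, hd, h2, hc1, hc2, hc3⟩ := ha
  have hp17 := hp 17 (by norm_num)
  refine ⟨hs, ?_, ?_, ?_, ?_, ?_⟩
  · intro p hpp hp2 hp17 h
    rcases (hp p hpp).1 h with ⟨h1, -⟩ | ⟨-, h1⟩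
    · exact hd p hpp hp2 hp17 h1
    · exact h1
  · intro h4 h
    rcases (hp 2 Nat.prime_two).1 h with ⟨h1, -⟩ | ⟨-, h1⟩
    · exact h2 h4 h1
    · push_cast at h1
      omega
  · intro h h1
    rcases hp17.1 h1 with ⟨h3, -⟩ | ⟨-, h3⟩
    · exact hc1 h h3
    · have := jac_dvd.2 h3
      rw [this] at h
      exact absurd h (by decide)
  · intro h
    refine jac_of he ?_
    rw [jacobiSym.mul_left, hc2 h, h, mul_one]
  · intro h
    left
    have ha17 : (17 : ℤ) ∣ a := by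
      have := h17 h
      subst this
      exact hpa
    have h3 : jacobiSym ((a / 17) * (m / 17)) 17 = 1 := by
      rcases hc3 h with h3 | ⟨-, h3⟩
      · rw [jac_dvd.2 ha17] at h3
        exact absurd h3 (by decide)
      · exact h3
    obtain ⟨a1, rfl⟩ := ha17
    obtain ⟨m1, rfl⟩ := h
    have hg17 : (17 : ℤ) ∣ g := (hgp 17 (by norm_num)).2 ⟨Dvd.intro _ rfl, Dvd.intro _ rfl⟩
    obtain ⟨g1, rfl⟩ := hg17
    rw [Int.mul_ediv_cancel_left _ (by norm_num), Int.mul_ediv_cancel_left _ (by norm_num)] at h3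
    refine jac_of (g := g1) ?_ h3
    have h5 : (289 : ℤ) * (a' * g1 ^ 2) = 289 * (a1 * m1) := by linear_combination he
    linarith

lemma natAbs_ne_one {m : ℤ} (h1 : m ≠ 1) (h2 : m ≠ -1) : m.natAbs ≠ 1 := by omega

theorem part_A {m : ℤ} (hm : Squarefree m) (hm1 : m ≠ 1) (hm2 : m ≠ -1)
    (hH : (m < 0 ∧ jacobiSym m 17 ≠ 1) ∨ (0 < m ∧ jacobiSym m 17 = 1))
    (hH1 : jacobiSym m 17 ≠ -1 → ∃ p : ℕ, p.Prime ∧ p ≠ 2 ∧ (p : ℤ) ∣ m ∧ jacobiSym p 17 = -1) :
    ∃ S : Finset ℤ, ((∀ a ∈ S, RA m a) ∧ (∀ a ∈ S, ∀ b ∈ S, Eqv' m a b → a = b) ∧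
      ∀ a, RA m a → ∃ b ∈ S, Eqv' m a b) ∧ S.card = 2 ^ ((R m).card + 1 - if 0 < m then 2 else 1) := by
  have hm0 : m ≠ 0 := hm.ne_zero
  obtain ⟨p0, hp0, hpm, h17⟩ : ∃ p0 : ℕ, p0.Prime ∧ (p0 : ℤ) ∣ m ∧ ((17 : ℤ) ∣ m → p0 = 17) := by
    by_cases h : (17 : ℤ) ∣ m
    · exact ⟨17, by norm_num, h, fun _ => rfl⟩
    · have h1 : m.natAbs ≠ 1 := natAbs_ne_one hm1 hm2
      obtain ⟨p, hp, hpd⟩ := Nat.exists_prime_and_dvd h1
      exact ⟨p, hp, Int.natCast_dvd.2 hpd, fun h2 => absurd h2 h⟩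
  refine ⟨SS (Ia m p0) (Qa m), transv hm hp0 hpm (RA m) (fun a h => h.1)
    (fun a a' g h1 h2 h3 h4 h5 h6 h7 => closed_A hm h17 a a' g h1 h2 h3 h4 h5 h6 h7) _
    (mem_SA hm hp0 h17), ?_⟩
  have hG := Gn_Ia hm0 p0
  have hcI : (Ia m p0).card = ((R m).erase p0).card + 1 := by
    unfold Ia
    rw [Finset.card_insert_of_notMem neg_notMem_im, card_im]
  -- the half
  have hhalf : jacobiSym m 17 ≠ -1 → (∃ p ∈ (R m).erase p0, jacobiSym (p : ℤ) 17 = -1) →
      2 * (SS (Ia m p0) (Qa m)).card = 2 ^ (Ia m p0).card := by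
    rintro hj ⟨p, hp, hp1⟩
    refine card_SS_half hG (Qa m) (fun g => jacobiSym g 17) ?_ ⟨p, mem_insert_im.2 hp, hp1⟩ ?_
    · intro g hg
      unfold Ia at hg
      rcases Finset.mem_insert.1 hg with rfl | hg
      · exact Or.inl jac_neg_one
      · unfold im at hg
        rw [Finset.mem_image] at hg
        obtain ⟨q, hq, rfl⟩ := hg
        rw [Finset.mem_erase, mem_R hm0] at hq
        rcases jac_cases (q : ℤ) with h1 | h1 | h1
        · exfalso
          have h2 := jac_dvd.1 h1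
          have h3 : 17 ∣ q := by exact_mod_cast h2
          exact hq.2.1 ((Nat.prime_dvd_prime_iff_eq (by norm_num) hq.2.2.1).1 h3).symm
        · exact Or.inl h1
        · exact Or.inr h1
    · intro A _
      unfold Qa
      rw [jac_prod]
      exact ⟨fun h => h hj, fun h _ => h⟩
  rcases jac_cases m with hj | hj | hj
  · -- `17 ∣ m`
    have h17m := jac_dvd.1 hj
    have hneg : ¬ 0 < m := by
      rcases hH with h | h
      · omega
      · rw [hj] at h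
        exact absurd h.2 (by decide)
    have hp17 := h17 h17m
    subst hp17
    obtain ⟨p, hp, hp2, hpd, hpj⟩ := hH1 (by rw [hj]; decide)
    have hpR : p ∈ R m := by
      rw [mem_R hm0]
      refine ⟨?_, hp, Or.inl hpd⟩
      rintro rfl
      rw [jac_dvd.2 (by norm_num)] at hpj
      exact absurd hpj (by decide)
    have h17R : 17 ∉ R m := fun h => ((mem_R hm0).1 h).1 rfl
    have hRe : (R m).erase 17 = R m := Finset.erase_eq_of_notMem h17R
    have h1 := hhalf (by rw [hj]; decide) ⟨p, by rw [hRe]; exact hpR, hpj⟩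
    rw [hcI, hRe, pow_succ] at h1
    rw [if_neg hneg, Nat.add_sub_cancel]
    omega
  · -- split
    have hpos : 0 < m := by
      rcases hH with h | h
      · exact absurd hj h.2
      · exact h.1
    have h17m : ¬ (17 : ℤ) ∣ m := by
      intro h
      rw [jac_dvd.2 h] at hj
      exact absurd hj (by decide)
    have hp0R : p0 ∈ R m := by
      rw [mem_R hm0]
      exact ⟨fun h => h17m (by rw [h] at hpm; exact hpm), hp0, Or.inl hpm⟩
    obtain ⟨p, hp, hp2, hpd, hpj⟩ := hH1 (by rw [hj]; decide)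
    have hne17 : ∀ q : ℕ, (q : ℤ) ∣ m → q ≠ 17 := by
      rintro q hq rfl
      exact h17m hq
    obtain ⟨q, hq, hqj⟩ : ∃ q ∈ (R m).erase p0, jacobiSym (q : ℤ) 17 = -1 := by
      by_cases hpp : p = p0
      · obtain ⟨A, hA, hA2, hA3, hA4⟩ := exists_prod hm
        have hpA : (p : ℤ) ∈ A := (hA3 p hp).2 hpd
        have h1 : ∏ g ∈ A, jacobiSym g 17 = 1 := by rw [← jac_prod, hA2, hj]
        obtain ⟨y, hy, hyne, hyj⟩ := another (χ := fun g => jacobiSym g 17) hpA hpj h1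
        rcases hA y hy with rfl | ⟨q, hqp, rfl⟩
        · exact absurd jac_neg_one hyj
        · have hqm := (hA3 q hqp).1 hy
          refine ⟨q, ?_, ?_⟩
          · rw [Finset.mem_erase, mem_R hm0]
            refine ⟨fun h => hyne (by rw [hpp, h]), hne17 q hqm, hqp, Or.inl hqm⟩
          · rcases jac_cases (q : ℤ) with h2 | h2 | h2
            · have h3 : (17 : ℤ) ∣ m := (jac_dvd.1 h2).trans hqm
              exact absurd h3 h17m
            · exact absurd h2 hyj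
            · exact h2
      · refine ⟨p, ?_, hpj⟩
        rw [Finset.mem_erase, mem_R hm0]
        exact ⟨hpp, hne17 p hpd, hp, Or.inl hpd⟩
    have h1 := hhalf (by rw [hj]; decide) ⟨q, hq, hqj⟩
    have hc1 : ((R m).erase p0).card + 1 = (R m).card := Finset.card_erase_add_one hp0R
    have hc2 : 0 < ((R m).erase p0).card := Finset.card_pos.2 ⟨q, hq⟩
    rw [hcI] at h1
    rw [if_pos hpos, ← hc1]
    rw [pow_succ] at h1
    have e1 : ((R m).erase p0).card + 1 + 1 - 2 = ((R m).erase p0).card := by omega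
    rw [e1]
    omega
  · -- inert
    have hneg : ¬ 0 < m := by
      rcases hH with h | h
      · omega
      · rw [hj] at h
        exact absurd h.2 (by decide)
    have h17m : ¬ (17 : ℤ) ∣ m := by
      intro h
      rw [jac_dvd.2 h] at hj
      exact absurd hj (by decide)
    have hp0R : p0 ∈ R m := by
      rw [mem_R hm0]
      exact ⟨fun h => h17m (by rw [h] at hpm; exact hpm), hp0, Or.inl hpm⟩
    have hc1 : ((R m).erase p0).card + 1 = (R m).card := Finset.card_erase_add_one hp0R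
    have hQ : Qa m = fun _ => True := by
      funext a
      unfold Qa
      exact propext ⟨fun _ => trivial, fun _ h => absurd hj h⟩
    rw [hQ, card_SS_full hG, hcI, if_neg hneg, hc1, Nat.add_sub_cancel]

/-! ### the part `b` -/

/-- the odd primes dividing `17 m` -/
noncomputable def R2 (m : ℤ) : Finset ℕ := insert 17 ((R m).erase 2)

lemma mem_R2 {m : ℤ} (hm : m ≠ 0) {p : ℕ} : p ∈ R2 m ↔ p = 17 ∨ (p ≠ 2 ∧ p ≠ 17 ∧ p.Prime ∧ (p : ℤ) ∣ m) := by
  unfold R2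
  rw [Finset.mem_insert, Finset.mem_erase, mem_R hm]
  constructor
  · rintro (h | ⟨h1, h2, h3, h4 | ⟨h4, -⟩⟩)
    · exact Or.inl h
    · exact Or.inr ⟨h1, h2, h3, h4⟩
    · exact absurd h4 h1
  · rintro (h | ⟨h1, h2, h3, h4⟩)
    · exact Or.inl h
    · exact Or.inr ⟨h1, h2, h3, Or.inl h4⟩

/-- the generators -/
noncomputable def Ib (m : ℤ) (p0 : ℕ) : Finset ℤ :=
  if m < 0 then insert (-1) (im ((R2 m).erase p0)) else im ((R2 m).erase p0)

/-- the condition -/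
def Qb (m b : ℤ) : Prop := m % 4 ≠ 3 → b % 4 = 1

lemma Gn_Ib {m : ℤ} (hm : m ≠ 0) (p0 : ℕ) : Gn (Ib m p0) := by
  have h : Gn (im ((R2 m).erase p0)) := by
    refine Gn_im fun p hp => ?_
    rcases (mem_R2 hm).1 (Finset.mem_of_mem_erase hp) with h | h
    · rw [h]; norm_num
    · exact h.2.2.1
  unfold Ib
  split_ifs
  · exact Gn_insert h
  · exact h

lemma mem_Ib {m : ℤ} {p0 p : ℕ} : (p : ℤ) ∈ Ib m p0 ↔ p ∈ (R2 m).erase p0 := by
  unfold Ib
  split_ifs
  · exact mem_insert_im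
  · exact mem_im

lemma neg_mem_Ib {m : ℤ} {p0 : ℕ} : (-1 : ℤ) ∈ Ib m p0 ↔ m < 0 := by
  unfold Ib
  split_ifs with h
  · exact ⟨fun _ => h, fun _ => Finset.mem_insert_self _ _⟩
  · exact ⟨fun h1 => absurd h1 neg_notMem_im, fun h1 => absurd h1 h⟩

lemma mem_SB {m : ℤ} (hm : Squarefree m) {p0 : ℕ} (hp0 : p0.Prime) (h2m : (2 : ℤ) ∣ m → p0 = 2)
    (b : ℤ) : b ∈ SS (Ib m p0) (Qb m) ↔ RB m b ∧ ¬ (p0 : ℤ) ∣ b := by
  have hm0 : m ≠ 0 := hm.ne_zero
  rw [mem_SS (Gn_Ib hm0 p0)]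
  constructor
  · rintro ⟨hs, hn, hd, hQ⟩
    have hd' : ∀ p : ℕ, p.Prime → (p : ℤ) ∣ b → p ≠ p0 ∧ (p = 17 ∨ (p ≠ 2 ∧ p ≠ 17 ∧ p.Prime ∧ (p : ℤ) ∣ m)) := by
      intro p hp h
      have h1 := mem_Ib.1 (hd p hp h)
      rw [Finset.mem_erase, mem_R2 hm0] at h1
      exact h1
    have hodd : ¬ (2 : ℤ) ∣ b := by
      intro h
      rcases (hd' 2 Nat.prime_two h).2 with h1 | h1
      · exact absurd h1 (by decide)
      · exact h1.1 rfl
    refine ⟨⟨hs, ?_, ?_, ?_, ?_, ?_⟩, fun h => (hd' p0 hp0 h).1 rfl⟩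
    · intro p hp _ h17 h
      rcases (hd' p hp h).2 with h1 | h1
      · exact absurd h1 h17
      · exact h1.2.2.2
    · exact fun h => hQ (by omega)
    · exact fun _ => hodd
    · exact fun h => Or.inl (hQ (by omega))
    · intro h
      by_contra hcon
      have hb0 : b ≠ 0 := hs.ne_zero
      have h1 := neg_mem_Ib.1 (hn (by omega))
      omega
  · rintro ⟨⟨hs, hd, h1, h3, h2, hpos⟩, hp0b⟩
    have hodd : ¬ (2 : ℤ) ∣ b := by
      intro h
      by_cases h4 : (2 : ℤ) ∣ m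
      · rw [h2m h4] at hp0b
        exact hp0b h
      · have h5 : m % 4 = 1 ∨ m % 4 = 3 := by omega
        rcases h5 with h5 | h5
        · have := h1 h5
          omega
        · exact h3 h5 h
    refine ⟨hs, ?_, ?_, ?_⟩
    · intro h
      rw [neg_mem_Ib]
      by_contra hcon
      have := hpos (by omega)
      omega
    · intro p hp h
      rw [mem_Ib, Finset.mem_erase, mem_R2 hm0]
      refine ⟨fun h1 => hp0b (h1 ▸ h), ?_⟩
      by_cases h17 : p = 17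
      · exact Or.inl h17
      · have hp2 : p ≠ 2 := by
          rintro rfl
          exact hodd h
        exact Or.inr ⟨hp2, h17, hp, hd p hp hp2 h17 h⟩
    · intro h
      by_cases h4 : (2 : ℤ) ∣ m
      · rcases h2 h4 with h5 | ⟨h5, -⟩
        · exact h5
        · exact absurd h5 hodd
      · exact h1 (by omega)

lemma odd_sq_mod {b' g x : ℤ} (h : b' * g ^ 2 = x) (hx : x % 4 = 1) : b' % 4 = 1 := by
  have hg : g % 2 = 1 := by
    by_contra hcon
    have h1 : (2 : ℤ) ∣ g := by omega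
    obtain ⟨k, rfl⟩ := h1
    have : x % 4 = 0 := by
      rw [← h]
      have e : b' * (2 * k) ^ 2 = 4 * (b' * k ^ 2) := by ring
      rw [e]
      exact Int.mul_emod_right _ _
    omega
  obtain ⟨k, hk⟩ : ∃ k, g = 2 * k + 1 := ⟨g / 2, by omega⟩
  have e : x = b' + 4 * (b' * (k ^ 2 + k)) := by rw [← h, hk]; ring
  omega

lemma closed_B {m : ℤ} (hm : Squarefree m) {p0 : ℕ} (h2m : (2 : ℤ) ∣ m → p0 = 2)
    (b b' g : ℤ) (hb : RB m b) (hpb : (p0 : ℤ) ∣ b) (hg : g ≠ 0) (he : b' * g ^ 2 = b * m)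
    (hs : Squarefree b')
    (hp : ∀ p : ℕ, p.Prime → ((p : ℤ) ∣ b' ↔ ((p : ℤ) ∣ b ∧ ¬ (p : ℤ) ∣ m) ∨ (¬ (p : ℤ) ∣ b ∧ (p : ℤ) ∣ m)))
    (hgp : ∀ p : ℕ, p.Prime → ((p : ℤ) ∣ g ↔ (p : ℤ) ∣ b ∧ (p : ℤ) ∣ m)) : RB m b' := by
  obtain ⟨hsb, hd, h1, h3, h2, hpos⟩ := hb
  refine ⟨hs, ?_, ?_, ?_, ?_, ?_⟩
  · intro p hpp hp2 hp17 h
    rcases (hp p hpp).1 h with ⟨h1, -⟩ | ⟨-, h1⟩
    · exact hd p hpp hp2 hp17 h1
    · exact h1
  · intro h4
    refine odd_sq_mod he ?_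
    rw [Int.mul_emod, h1 h4, h4]
    rfl
  · intro h4 h
    rcases (hp 2 Nat.prime_two).1 h with ⟨h5, -⟩ | ⟨-, h5⟩
    · exact h3 h4 h5
    · push_cast at h5
      omega
  · intro h
    left
    have hb2 : (2 : ℤ) ∣ b := by
      have := h2m h
      subst this
      exact hpb
    have h5 : ((b / 2) * (m / 2)) % 4 = 1 := by
      rcases h2 h with h5 | ⟨-, h5⟩
      · omega
      · exact h5
    obtain ⟨b1, rfl⟩ := hb2
    obtain ⟨m1, rfl⟩ := h
    have hg2 : (2 : ℤ) ∣ g := (hgp 2 Nat.prime_two).2 ⟨Dvd.intro _ rfl, Dvd.intro _ rfl⟩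
    obtain ⟨g1, rfl⟩ := hg2
    rw [Int.mul_ediv_cancel_left _ (by norm_num), Int.mul_ediv_cancel_left _ (by norm_num)] at h5
    refine odd_sq_mod (g := g1) ?_ h5
    have h6 : (4 : ℤ) * (b' * g1 ^ 2) = 4 * (b1 * m1) := by linear_combination he
    linarith
  · intro h
    have h4 : 0 < b' * g ^ 2 := by
      rw [he]
      exact mul_pos (hpos h) h
    by_contra hcon
    push Not at hcon
    have := mul_nonpos_of_nonpos_of_nonneg hcon (sq_nonneg g)
    linarith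

lemma chi_prod (A : Finset ℤ) : (∏ g ∈ A, g) % 4 = 1 ↔ ∏ g ∈ A, ZMod.χ₄ (g : ZMod 4) = 1 := by
  have h1 : ∏ g ∈ A, ZMod.χ₄ (g : ZMod 4) = ZMod.χ₄ ((∏ g ∈ A, g : ℤ) : ZMod 4) := by
    rw [Int.cast_prod, map_prod]
  rw [h1, ZMod.χ₄_int_eq_if_mod_four]
  split_ifs with h2 h3
  · exact ⟨fun h => by omega, fun h => absurd h (by decide)⟩
  · exact ⟨fun _ => rfl, fun _ => h3⟩
  · exact ⟨fun h => absurd h h3, fun h => absurd h (by decide)⟩

lemma chi_three {p : ℤ} (h : p % 4 = 3) : ZMod.χ₄ (p : ZMod 4) = -1 := ZMod.χ₄_int_three_mod_four h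

theorem part_B {m : ℤ} (hm : Squarefree m) (hm1 : m ≠ 1) (hm2 : m ≠ -1)
    (hH2 : 0 < m → m % 4 = 3 ∨ ∃ p : ℕ, p.Prime ∧ (p : ℤ) ∣ m ∧ p % 4 = 3) :
    ∃ S : Finset ℤ, ((∀ a ∈ S, RB m a) ∧ (∀ a ∈ S, ∀ b ∈ S, Eqv' m a b → a = b) ∧
      ∀ a, RB m a → ∃ b ∈ S, Eqv' m a b) ∧ S.card = 2 ^ ((R m).card + 1 - if 0 < m then 2 else 1) := by
  have hm0 : m ≠ 0 := hm.ne_zero
  obtain ⟨p0, hp0, hpm, h2m⟩ : ∃ p0 : ℕ, p0.Prime ∧ (p0 : ℤ) ∣ m ∧ ((2 : ℤ) ∣ m → p0 = 2) := by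
    by_cases h : (2 : ℤ) ∣ m
    · exact ⟨2, by norm_num, h, fun _ => rfl⟩
    · have h1 : m.natAbs ≠ 1 := natAbs_ne_one hm1 hm2
      obtain ⟨p, hp, hpd⟩ := Nat.exists_prime_and_dvd h1
      exact ⟨p, hp, Int.natCast_dvd.2 hpd, fun h2 => absurd h2 h⟩
  refine ⟨SS (Ib m p0) (Qb m), transv hm hp0 hpm (RB m) (fun a h => h.1)
    (fun a a' g h1 h2 h3 h4 h5 h6 h7 => closed_B hm h2m a a' g h1 h2 h3 h4 h5 h6 h7) _
    (mem_SB hm hp0 h2m), ?_⟩
  have hG := Gn_Ib hm0 p0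
  have h17R : 17 ∉ R m := fun h => ((mem_R hm0).1 h).1 rfl
  have hR2 : (R2 m).card = ((R m).erase 2).card + 1 := by
    unfold R2
    exact Finset.card_insert_of_notMem fun h => h17R (Finset.mem_of_mem_erase h)
  -- the generators are odd
  have hodd : ∀ g ∈ Ib m p0, ZMod.χ₄ (g : ZMod 4) = 1 ∨ ZMod.χ₄ (g : ZMod 4) = -1 := by
    intro g hg
    have h1 : g % 2 = 1 := by
      rcases hG g hg with rfl | ⟨p, hp, rfl⟩
      · rfl
      · have h2 := mem_Ib.1 hg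
        rw [Finset.mem_erase, mem_R2 hm0] at h2
        have hp2 : p ≠ 2 := by
          rcases h2.2 with h3 | h3
          · omega
          · exact h3.1
        have := hp.eq_two_or_odd
        omega
    rcases (by omega : g % 4 = 1 ∨ g % 4 = 3) with h2 | h2
    · exact Or.inl (ZMod.χ₄_int_one_mod_four h2)
    · exact Or.inr (ZMod.χ₄_int_three_mod_four h2)
  have hhalf : m % 4 ≠ 3 → (∃ g ∈ Ib m p0, ZMod.χ₄ (g : ZMod 4) = -1) →
      2 * (SS (Ib m p0) (Qb m)).card = 2 ^ (Ib m p0).card := by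
    intro h3 hex
    refine card_SS_half hG (Qb m) (fun g => ZMod.χ₄ (g : ZMod 4)) hodd hex ?_
    intro A _
    unfold Qb
    rw [← chi_prod]
    exact ⟨fun h => h h3, fun h _ => h⟩
  have hcneg : m < 0 → (Ib m p0).card = ((R2 m).erase p0).card + 1 := by
    intro h
    unfold Ib
    rw [if_pos h, Finset.card_insert_of_notMem neg_notMem_im, card_im]
  have hcpos : ¬ m < 0 → (Ib m p0).card = ((R2 m).erase p0).card := by
    intro h
    unfold Ib
    rw [if_neg h, card_im]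
  have hneg1 : m < 0 → ∃ g ∈ Ib m p0, ZMod.χ₄ (g : ZMod 4) = -1 := by
    intro h
    exact ⟨-1, neg_mem_Ib.2 h, chi_three (by decide)⟩
  by_cases h2 : (2 : ℤ) ∣ m
  · -- `m` even
    have hp02 := h2m h2
    subst hp02
    have h2R : 2 ∈ R m := (mem_R hm0).2 ⟨by decide, Nat.prime_two, Or.inl h2⟩
    have hc1 : ((R m).erase 2).card + 1 = (R m).card := Finset.card_erase_add_one h2R
    have h2R2 : 2 ∉ R2 m := by
      rw [mem_R2 hm0]
      rintro (h | h)
      · exact absurd h (by decide)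
      · exact h.1 rfl
    have hc2 : ((R2 m).erase 2).card = (R m).card := by
      rw [Finset.erase_eq_of_notMem h2R2, hR2, hc1]
    by_cases hn : m < 0
    · have h1 := hhalf (by omega) (hneg1 hn)
      rw [hcneg hn, hc2, pow_succ] at h1
      rw [if_neg (by omega), Nat.add_sub_cancel]
      omega
    · have hpos : 0 < m := by omega
      obtain ⟨p, hp, hpd, hp3⟩ : ∃ p : ℕ, p.Prime ∧ (p : ℤ) ∣ m ∧ p % 4 = 3 := by
        rcases hH2 hpos with h | h
        · omega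
        · exact h
      have hpI : (p : ℤ) ∈ Ib m 2 := by
        rw [mem_Ib, Finset.mem_erase, mem_R2 hm0]
        exact ⟨by omega, Or.inr ⟨by omega, by omega, hp, hpd⟩⟩
      have h1 := hhalf (by omega) ⟨p, hpI, chi_three (by omega)⟩
      rw [hcpos hn, hc2, ← hc1, pow_succ] at h1
      rw [if_pos hpos, ← hc1]
      have e1 : ((R m).erase 2).card + 1 + 1 - 2 = ((R m).erase 2).card := by omega
      rw [e1]
      omega
  · -- `m` odd
    have hp02 : p0 ≠ 2 := by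
      rintro rfl
      exact h2 hpm
    have hp0R : p0 ∈ R2 m := by
      rw [mem_R2 hm0]
      by_cases h : p0 = 17
      · exact Or.inl h
      · exact Or.inr ⟨hp02, h, hp0, hpm⟩
    have hc0 : ((R2 m).erase p0).card + 1 = (R2 m).card := Finset.card_erase_add_one hp0R
    have hc0' : ((R2 m).erase p0).card = ((R m).erase 2).card := by omega
    rcases (by omega : m % 4 = 1 ∨ m % 4 = 3) with h4 | h4
    · have h2R : 2 ∉ R m := by
        rw [mem_R hm0]
        rintro ⟨-, -, h | ⟨-, h⟩⟩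
        · exact h2 h
        · exact h h4
      rw [Finset.erase_eq_of_notMem h2R] at hc0'
      by_cases hn : m < 0
      · have h1 := hhalf (by omega) (hneg1 hn)
        rw [hcneg hn, hc0', pow_succ] at h1
        rw [if_neg (by omega), Nat.add_sub_cancel]
        omega
      · have hpos : 0 < m := by omega
        obtain ⟨p, hp, hpd, hp3⟩ : ∃ p : ℕ, p.Prime ∧ (p : ℤ) ∣ m ∧ p % 4 = 3 := by
          rcases hH2 hpos with h | h
          · omega
          · exact h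
        obtain ⟨q, hq, hq0, hqd, hq3⟩ : ∃ q : ℕ, q.Prime ∧ q ≠ p0 ∧ (q : ℤ) ∣ m ∧ q % 4 = 3 := by
          by_cases hpp : p = p0
          · obtain ⟨A, hA, hA2, hA3, hA4⟩ := exists_prod hm
            have hpA : (p : ℤ) ∈ A := (hA3 p hp).2 hpd
            have h1 : ∏ g ∈ A, ZMod.χ₄ (g : ZMod 4) = 1 := by
              rw [← chi_prod, hA2, h4]
            obtain ⟨y, hy, hyne, hyj⟩ := another (χ := fun g => ZMod.χ₄ (g : ZMod 4)) hpA
              (chi_three (by omega)) h1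
            rcases hA y hy with rfl | ⟨q, hqp, rfl⟩
            · have := hA4.1 hy
              omega
            · have hqm := (hA3 q hqp).1 hy
              refine ⟨q, hqp, fun h => hyne (by rw [hpp, h]), hqm, ?_⟩
              have hq2 : q ≠ 2 := by
                rintro rfl
                exact h2 hqm
              have h5 := hqp.eq_two_or_odd
              by_contra hcon
              apply hyj
              exact ZMod.χ₄_int_one_mod_four (by omega)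
          · exact ⟨p, hp, hpp, hpd, hp3⟩
        have hqI : (q : ℤ) ∈ Ib m p0 := by
          rw [mem_Ib, Finset.mem_erase, mem_R2 hm0]
          exact ⟨hq0, Or.inr ⟨by omega, by omega, hq, hqd⟩⟩
        have h1 := hhalf (by omega) ⟨q, hqI, chi_three (by omega)⟩
        have hq' : q ∈ R m := (mem_R hm0).2 ⟨by omega, hq, Or.inl hqd⟩
        have hcp : 0 < (R m).card := Finset.card_pos.2 ⟨q, hq'⟩
        obtain ⟨t, ht⟩ := Nat.exists_eq_succ_of_ne_zero hcp.ne'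
        rw [hcpos hn, hc0', ht, Nat.succ_eq_add_one, pow_succ] at h1
        rw [if_pos hpos, ht]
        have e1 : t.succ + 1 - 2 = t := by omega
        rw [e1]
        omega
    · have h2R : 2 ∈ R m := (mem_R hm0).2 ⟨by decide, Nat.prime_two, Or.inr ⟨rfl, by omega⟩⟩
      have hc1 : ((R m).erase 2).card + 1 = (R m).card := Finset.card_erase_add_one h2R
      have hQ : Qb m = fun _ => True := by
        funext a
        unfold Qb
        exact propext ⟨fun _ => trivial, fun _ h => absurd h4 h⟩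
      rw [hQ, card_SS_full hG]
      by_cases hn : m < 0
      · rw [hcneg hn, hc0', hc1, if_neg (by omega), Nat.add_sub_cancel]
      · rw [hcpos hn, hc0', if_pos (by omega), ← hc1]
        congr 1

end Pool.Agent.N530.K17
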