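import Pool.Agent.N530.K17.Cnt1

/-!
# K17-CNT: the product of the two parts
-/

set_option autoImplicit false

namespace Pool.Agent.N530.K17

open scoped Classical

theorem part_AB {m : ℤ} (hm : Squarefree m) (hm1 : m ≠ 1) (hm2 : m ≠ -1)
    (hH : (m < 0 ∧ jacobiSym m 17 ≠ 1) ∨ (0 < m ∧ jacobiSym m 17 = 1))
    (hH1 : jacobiSym m 17 ≠ -1 → ∃ p : ℕ, p.Prime ∧ p ≠ 2 ∧ (p : ℤ) ∣ m ∧ jacobiSym p 17 = -1)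
    (hH2 : 0 < m → m % 4 = 3 ∨ ∃ p : ℕ, p.Prime ∧ (p : ℤ) ∣ m ∧ p % 4 = 3) :
    ∃ S : Finset (ℤ × ℤ), (∀ z ∈ S, RA m z.1 ∧ RB m z.2) ∧
      (∀ z ∈ S, ∀ z' ∈ S, Eqv' m z.1 z'.1 → Eqv' m z.2 z'.2 → z = z') ∧
      (∀ a b : ℤ, RA m a → RB m b → ∃ z ∈ S, Eqv' m a z.1 ∧ Eqv' m b z.2) ∧
      S.card = 4 ^ ((R m).card + 1 - if 0 < m then 2 else 1) := by
  obtain ⟨SA, ⟨a1, a2, a3⟩, a4⟩ := part_A hm hm1 hm2 hH hH1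
  obtain ⟨SB, ⟨b1, b2, b3⟩, b4⟩ := part_B hm hm1 hm2 hH2
  refine ⟨SA ×ˢ SB, ?_, ?_, ?_, ?_⟩
  · intro z hz
    rw [Finset.mem_product] at hz
    exact ⟨a1 _ hz.1, b1 _ hz.2⟩
  · intro z hz z' hz' h1 h2
    rw [Finset.mem_product] at hz hz'
    exact Prod.ext (a2 _ hz.1 _ hz'.1 h1) (b2 _ hz.2 _ hz'.2 h2)
  · intro a b ha hb
    obtain ⟨x, hx, hx'⟩ := a3 a ha
    obtain ⟨y, hy, hy'⟩ := b3 b hb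
    exact ⟨(x, y), Finset.mem_product.2 ⟨hx, hy⟩, hx', hy'⟩
  · rw [Finset.card_product, a4, b4, ← mul_pow]
    norm_num

end Pool.Agent.N530.K17
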